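import Pool.Agent.H149R3.SelfSim

/-!
Levels of a self-similar structure, and the lower bound for the number of sections.
-/

set_option autoImplicit false

namespace Pool.Agent.H149R3

universe u v

/-- words of length `n` -/
def Lev (X : Type u) : ℕ → Type u
  | 0 => PUnit
  | n + 1 => X × Lev X n

instance instFintypeLev (X : Type u) [Fintype X] : ∀ n, Fintype (Lev X n)
  | 0 => inferInstanceAs (Fintype PUnit)
  | n + 1 => by
    haveI := instFintypeLev X n
    exact inferInstanceAs (Fintype (X × Lev X n))

lemma card_lev (X : Type u) [Fintype X] (n : ℕ) : Fintype.card (Lev X n) = Fintype.card X ^ n := by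
  induction n with
  | zero => rfl
  | succ n ih =>
    have : Fintype.card (Lev X (n + 1)) = Fintype.card (X × Lev X n) := rfl
    rw [this, Fintype.card_prod, ih, pow_succ, mul_comm]

/-- the list of letters -/
def Lev.toList {X : Type u} : ∀ {n : ℕ}, Lev X n → List X
  | 0, _ => []
  | _ + 1, (x, y) => x :: Lev.toList y

lemma Lev.exists_toList {X : Type u} (u : List X) : ∃ y : Lev X u.length, y.toList = u := by
  induction u with
  | nil => exact ⟨PUnit.unit, rfl⟩
  | cons x u ih =>
    obtain ⟨y, hy⟩ := ih
    refine ⟨(x, y), ?_⟩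
    show x :: y.toList = x :: u
    rw [hy]

namespace SS

variable {G : Type v} [Group G] {X Y : Type u}

/-- the structure on the one letter alphabet of the empty word -/
def triv : SS G PUnit.{u + 1} := ⟨1, fun g _ => g, by intros; rfl⟩

/-- two levels at once -/
def prod (M : SS G X) (N : SS G Y) : SS G (X × Y) where
  act := permHomOf (fun g z => (M.act g z.1, N.act (M.sec g z.1) z.2))
    (by
      rintro ⟨x, y⟩
      simp only [M.act_one, M.sec_one, N.act_one])
    (by
      rintro g h ⟨x, y⟩
      simp only [M.act_mul, M.sec_mul, N.act_mul])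
  sec g z := N.sec (M.sec g z.1) z.2
  sec_mul := by
    rintro g h ⟨x, y⟩
    show N.sec (M.sec (g * h) x) y =
      N.sec (M.sec g (M.act h x)) (N.act (M.sec h x) y) * N.sec (M.sec h x) y
    rw [M.sec_mul, N.sec_mul]

lemma prod_act (M : SS G X) (N : SS G Y) (g : G) (x : X) (y : Y) :
    (M.prod N).act g (x, y) = (M.act g x, N.act (M.sec g x) y) := rfl

lemma prod_sec (M : SS G X) (N : SS G Y) (g : G) (x : X) (y : Y) :
    (M.prod N).sec g (x, y) = N.sec (M.sec g x) y := rfl

/-- the `n`-th level -/
def lev (M : SS G X) : ∀ n, SS G (Lev X n)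
  | 0 => triv
  | n + 1 => M.prod (M.lev n)

lemma triv_free1 : (triv : SS G PUnit.{u + 1}).Free1 := by
  intro g x _ h
  exact h

lemma prod_free1 {M : SS G X} {N : SS G Y} (hM : M.Free1) (hN : N.Free1) :
    (M.prod N).Free1 := by
  rintro g ⟨x, y⟩ h1 h2
  rw [prod_act, Prod.mk.injEq] at h1
  rw [prod_sec] at h2
  exact hM g x h1.1 (hN _ y h1.2 h2)

lemma lev_free1 {M : SS G X} (hM : M.Free1) : ∀ n, (M.lev n).Free1
  | 0 => triv_free1
  | n + 1 => prod_free1 hM (lev_free1 hM n)

lemma lev_sec_mem (M : SS G X) (S : Set G) (hS : ∀ s ∈ S, ∀ x, M.sec s x ∈ S) (n : ℕ) :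
    ∀ s ∈ S, ∀ y, (M.lev n).sec s y ∈ S := by
  induction n with
  | zero => intro s hs _; exact hs
  | succ n ih =>
    rintro s hs ⟨x, y⟩
    exact ih _ (hS s hs x) y

/-- section along a list -/
def secL (M : SS G X) (g : G) (u : List X) : G := u.foldl M.sec g

/-- action on lists -/
def actL (M : SS G X) : G → List X → List X
  | _, [] => []
  | g, x :: u => M.act g x :: M.actL (M.sec g x) u

lemma secL_nil (M : SS G X) (g : G) : M.secL g [] = g := rfl
lemma secL_cons (M : SS G X) (g : G) (x : X) (u : List X) :
    M.secL g (x :: u) = M.secL (M.sec g x) u := rfl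
lemma secL_append (M : SS G X) (g : G) (u w : List X) :
    M.secL g (u ++ w) = M.secL (M.secL g u) w := by
  unfold secL
  rw [List.foldl_append]

lemma lev_sec (M : SS G X) : ∀ (n : ℕ) (g : G) (y : Lev X n),
    (M.lev n).sec g y = M.secL g y.toList
  | 0, g, _ => rfl
  | n + 1, g, (x, y) => by
    show (M.lev n).sec (M.sec g x) y = _
    rw [lev_sec M n]
    rfl

lemma secL_mul (M : SS G X) (g h : G) (u : List X) :
    M.secL (g * h) u = M.secL g (M.actL h u) * M.secL h u := by
  induction u generalizing g h with
  | nil => rfl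
  | cons x u ih =>
    simp only [actL, secL_cons]
    rw [M.sec_mul, ih]

lemma actL_mul (M : SS G X) (g h : G) (u : List X) :
    M.actL (g * h) u = M.actL g (M.actL h u) := by
  induction u generalizing g h with
  | nil => rfl
  | cons x u ih =>
    simp only [actL]
    rw [M.sec_mul, ih, M.act_mul]

lemma secL_one (M : SS G X) (u : List X) : M.secL 1 u = 1 := by
  induction u with
  | nil => rfl
  | cons x u ih => rw [secL_cons, M.sec_one, ih]

lemma actL_one (M : SS G X) (u : List X) : M.actL 1 u = u := by
  induction u with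
  | nil => rfl
  | cons x u ih => simp only [actL]; rw [M.sec_one, M.act_one, ih]

lemma actL_actL_inv (M : SS G X) (g : G) (u : List X) : M.actL g (M.actL g⁻¹ u) = u := by
  rw [← actL_mul, mul_inv_cancel, actL_one]

lemma actL_inv_actL (M : SS G X) (g : G) (u : List X) : M.actL g⁻¹ (M.actL g u) = u := by
  rw [← actL_mul, inv_mul_cancel, actL_one]

lemma secL_inv (M : SS G X) (g : G) (u : List X) :
    M.secL g⁻¹ (M.actL g u) = (M.secL g u)⁻¹ := by
  have h := M.secL_mul g⁻¹ g u
  rw [inv_mul_cancel, secL_one] at h
  exact eq_inv_of_mul_eq_one_left h.symm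

section count

open Classical in
/-- average number of sections at the letters -/
theorem card_mul_le_sum [Fintype Y] [DecidableEq G] {N : SS G Y} (hN : N.Free1) (A : Finset G) :
    A.card * Fintype.card (Quotient N.cls) ≤ ∑ y, (A.image (fun g => N.sec g y)).card := by
  let D : Finset Y := Finset.univ.image (Quotient.out : Quotient N.cls → Y)
  have hD : D.card = Fintype.card (Quotient N.cls) := by
    rw [Finset.card_image_of_injective _ Quotient.out_injective, Finset.card_univ]
  have hDeq : ∀ y ∈ D, ∀ z ∈ D, N.cls y z → y = z := by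
    intro y hy z hz h
    obtain ⟨c, _, rfl⟩ := Finset.mem_image.mp hy
    obtain ⟨c', _, rfl⟩ := Finset.mem_image.mp hz
    have := Quotient.sound h
    rw [Quotient.out_eq, Quotient.out_eq] at this
    rw [this]
  have h1 : ∀ g ∈ A, (Finset.univ.filter (fun y => N.act g y ∈ D)).card = D.card := by
    intro g _
    apply Finset.card_bij (fun y _ => N.act g y)
    · intro y hy
      simpa using hy
    · intro y _ z _ h
      exact (N.act g).injective h
    · intro z hz
      exact ⟨N.act g⁻¹ z, by simpa [N.act_act_inv] using hz, N.act_act_inv g z⟩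
  calc A.card * Fintype.card (Quotient N.cls)
      = ∑ g ∈ A, (Finset.univ.filter (fun y => N.act g y ∈ D)).card := by
        rw [Finset.sum_congr rfl h1, Finset.sum_const, smul_eq_mul, hD]
    _ = ∑ y, (A.filter (fun g => N.act g y ∈ D)).card := by
        simp only [Finset.card_filter]
        rw [Finset.sum_comm]
    _ ≤ ∑ y, (A.image (fun g => N.sec g y)).card := by
        refine Finset.sum_le_sum fun y _ => ?_
        apply Finset.card_le_card_of_injOn (fun g => N.sec g y)
        · intro g hg
          rw [Finset.mem_coe, Finset.mem_filter] at hg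
          exact Finset.mem_coe.mpr (Finset.mem_image_of_mem _ hg.1)
        · intro g hg g' hg' h
          rw [Finset.mem_coe, Finset.mem_filter] at hg hg'
          simp only at h
          apply hN.eq (x := y) _ h
          apply hDeq _ hg.2 _ hg'.2
          refine (N.cls_iff _ _).mpr ⟨g' * g⁻¹, ?_, ?_⟩
          · rw [N.act_mul, N.act_inv_act]
          · rw [N.sec_mul, N.act_inv_act, N.sec_inv, h, mul_inv_cancel]

lemma pow_growth (k n : ℕ) : (k + n) * k ^ n ≤ k * (k + 1) ^ n := by
  induction n with
  | zero => simp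
  | succ n ih =>
    calc (k + (n + 1)) * k ^ (n + 1) = ((k + n) * k ^ n) * k + k ^ n * k := by ring
      _ ≤ ((k + n) * k ^ n) * k + (k + n) * k ^ n := by
        have : k ^ n * k ≤ (k + n) * k ^ n := by
          rw [mul_comm]
          exact Nat.mul_le_mul_right _ (Nat.le_add_right _ _)
        omega
      _ = ((k + n) * k ^ n) * (k + 1) := by ring
      _ ≤ (k * (k + 1) ^ n) * (k + 1) := Nat.mul_le_mul_right _ ih
      _ = k * (k + 1) ^ (n + 1) := by ring

/-- the constants of the problem: a self-similar action of the free group with two distinguished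
basis elements, and a finite generating set closed under sections -/
structure Good {ι : Type v} (M : SS (FreeGroup ι) X) (S : Finset (FreeGroup ι)) : Prop where
  free1 : M.Free1
  gen : Subgroup.closure (S : Set (FreeGroup ι)) = ⊤
  sec : ∀ s ∈ S, ∀ x, M.sec s x ∈ S
  two : ∃ i j : ι, i ≠ j

lemma Good.lev {ι : Type v} {M : SS (FreeGroup ι) X} {S : Finset (FreeGroup ι)} (h : M.Good S)
    (n : ℕ) : (M.lev n).Good S :=
  ⟨lev_free1 h.free1 n, h.gen, fun s hs y => by
    have := lev_sec_mem M (S : Set (FreeGroup ι)) (fun s hs x => h.sec s hs x) n s hs y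
    exact this, h.two⟩

open Classical in
lemma Good.card_le [Fintype Y] {ι : Type v} {N : SS (FreeGroup ι) Y}
    {S : Finset (FreeGroup ι)} (h : N.Good S) :
    Fintype.card Y ≤ Fintype.card (Quotient N.cls) * S.card := by
  obtain ⟨i, j, hij⟩ := h.two
  apply SS.card_le h.free1 S h.gen h.sec (FreeGroup.of i) (FreeGroup.of j)
  intro a b
  obtain ⟨D, hD, hD'⟩ := N.exists_coc (K := ZMod 2) (fun k => if k = i then a else b)
  refine ⟨D, hD, by rw [hD', if_pos rfl], by rw [hD', if_neg hij.symm]⟩

open Classical in
/-- sections at one fixed letter -/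
theorem Good.card_le_image [Fintype Y] {ι : Type v} {N : SS (FreeGroup ι) Y}
    {S : Finset (FreeGroup ι)} (h : N.Good S) (A : Finset (FreeGroup ι))
    (hA : ∀ g ∈ A, ∀ y, N.sec g y ∈ A) (y₀ : Y) :
    A.card ≤ S.card * (A.image (fun g => N.sec g y₀)).card := by
  by_contra hcon
  push Not at hcon
  set m₀ := (A.image (fun g => N.sec g y₀)).card with hm₀
  set q := Fintype.card Y with hq
  have hq1 : 1 ≤ q := Fintype.card_pos_iff.mpr ⟨y₀⟩
  -- upper bound
  have hup : ∀ n, ∀ A' ⊆ A, ∑ y, (A'.image (fun g => (N.lev n).sec g y)).card ≤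
      q ^ n * m₀ + (q - 1) ^ n * A.card := by
    intro n
    induction n with
    | zero =>
      intro A' hA'
      have h1 : ∑ y : Lev Y 0, (A'.image (fun g => (N.lev 0).sec g y)).card = A'.card := by
        have h2 : ∀ y : Lev Y 0, (A'.image (fun g => (N.lev 0).sec g y)).card = A'.card := by
          intro y
          have : (fun g => (N.lev 0).sec g y) = id := rfl
          rw [this, Finset.image_id]
        rw [Finset.sum_congr rfl (fun y _ => h2 y), Finset.sum_const, Finset.card_univ, card_lev]
        simp
      rw [h1, pow_zero, pow_zero, one_mul, one_mul]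
      have := Finset.card_le_card hA'
      omega
    | succ n ih =>
      intro A' hA'
      have h1 : ∑ z : Lev Y (n + 1), (A'.image (fun g => (N.lev (n + 1)).sec g z)).card =
          ∑ x : Y, ∑ y : Lev Y n,
            ((A'.image (fun g => N.sec g x)).image (fun g => (N.lev n).sec g y)).card := by
        have : ∑ z : Lev Y (n + 1), (A'.image (fun g => (N.lev (n + 1)).sec g z)).card =
          ∑ z : Y × Lev Y n, (A'.image (fun g => (N.lev n).sec (N.sec g z.1) z.2)).card := rfl
        rw [this, Fintype.sum_prod_type]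
        refine Finset.sum_congr rfl fun x _ => Finset.sum_congr rfl fun y _ => ?_
        rw [Finset.image_image]
        rfl
      rw [h1, ← Finset.add_sum_erase _ _ (Finset.mem_univ y₀)]
      have h2 : ∑ y : Lev Y n,
            ((A'.image (fun g => N.sec g y₀)).image (fun g => (N.lev n).sec g y)).card ≤
            q ^ n * m₀ := by
        calc _ ≤ ∑ y : Lev Y n, m₀ := by
              refine Finset.sum_le_sum fun y _ => ?_
              refine Finset.card_image_le.trans ?_
              exact Finset.card_le_card (Finset.image_subset_image hA')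
          _ = q ^ n * m₀ := by
              rw [Finset.sum_const, Finset.card_univ, card_lev, smul_eq_mul]
      have h3 : ∑ x ∈ Finset.univ.erase y₀, ∑ y : Lev Y n,
            ((A'.image (fun g => N.sec g x)).image (fun g => (N.lev n).sec g y)).card ≤
            (q - 1) * (q ^ n * m₀ + (q - 1) ^ n * A.card) := by
        calc _ ≤ ∑ x ∈ Finset.univ.erase y₀, (q ^ n * m₀ + (q - 1) ^ n * A.card) := by
              refine Finset.sum_le_sum fun x _ => ih _ ?_
              intro k hk
              obtain ⟨g, hg, rfl⟩ := Finset.mem_image.mp hk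
              exact hA g (hA' hg) x
          _ = _ := by
              rw [Finset.sum_const, Finset.card_erase_of_mem (Finset.mem_univ _),
                Finset.card_univ, smul_eq_mul]
      calc _ ≤ q ^ n * m₀ + (q - 1) * (q ^ n * m₀ + (q - 1) ^ n * A.card) := add_le_add h2 h3
        _ = q ^ (n + 1) * m₀ + (q - 1) ^ (n + 1) * A.card := by
          obtain ⟨k, hk⟩ : ∃ k, q = k + 1 := ⟨q - 1, by omega⟩
          rw [hk, Nat.add_sub_cancel]
          ring
  -- lower bound
  have hlow : ∀ n, A.card * q ^ n ≤ S.card * (q ^ n * m₀ + (q - 1) ^ n * A.card) := by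
    intro n
    have h1 := (h.lev n).card_le
    rw [card_lev] at h1
    have h2 := card_mul_le_sum (h.lev n).free1 A
    have h3 := hup n A subset_rfl
    calc A.card * q ^ n ≤ A.card * (Fintype.card (Quotient (N.lev n).cls) * S.card) :=
          Nat.mul_le_mul_left _ h1
      _ = S.card * (A.card * Fintype.card (Quotient (N.lev n).cls)) := by ring
      _ ≤ S.card * (q ^ n * m₀ + (q - 1) ^ n * A.card) :=
          Nat.mul_le_mul_left _ (h2.trans h3)
  have hfin : ∀ n, q ^ n ≤ S.card * A.card * (q - 1) ^ n := by
    intro n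
    have h1 := hlow n
    have h2 : (S.card * m₀ + 1) * q ^ n ≤ A.card * q ^ n := Nat.mul_le_mul_right _ hcon
    nlinarith
  obtain ⟨k, hk⟩ : ∃ k, q = k + 1 := ⟨q - 1, by omega⟩
  rw [hk, Nat.add_sub_cancel] at hfin
  have h1 := hfin (k * (S.card * A.card) + 1)
  have h2 := pow_growth k (k * (S.card * A.card) + 1)
  set n := k * (S.card * A.card) + 1 with hn
  rcases Nat.eq_zero_or_pos k with hk0 | hk0
  · rw [hk0] at h1
    simp [hn, hk0] at h1
  · have h3 : (k + n) * k ^ n ≤ k * (S.card * A.card * k ^ n) :=
      h2.trans (Nat.mul_le_mul_left _ h1)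
    have h4 : (k + n) * k ^ n ≤ (k * (S.card * A.card)) * k ^ n := by
      calc _ ≤ _ := h3
        _ = _ := by ring
    have h5 := Nat.le_of_mul_le_mul_right h4 (Nat.pow_pos hk0)
    omega

open Classical in
/-- sections along one fixed word -/
theorem Good.card_le_imageL [Fintype X] {ι : Type v} {M : SS (FreeGroup ι) X}
    {S : Finset (FreeGroup ι)} (h : M.Good S) (A : Finset (FreeGroup ι))
    (hA : ∀ g ∈ A, ∀ y, M.sec g y ∈ A) (u : List X) :
    A.card ≤ S.card * (A.image (fun g => M.secL g u)).card := by
  obtain ⟨y, hy⟩ := Lev.exists_toList u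
  have h1 := (h.lev u.length).card_le_image A (lev_sec_mem M (A : Set (FreeGroup ι)) hA u.length) y
  have h2 : (fun g => (M.lev u.length).sec g y) = fun g => M.secL g u := by
    funext g
    rw [lev_sec, hy]
  rw [h2] at h1
  exact h1

open Classical in
/-- many elements have all sections of the same length -/
theorem Good.exists_core [Fintype X] {ι : Type v} {M : SS (FreeGroup ι) X}
    {S : Finset (FreeGroup ι)} (h : M.Good S) (A : Finset (FreeGroup ι))
    (hA : ∀ g ∈ A, ∀ y, M.sec g y ∈ A) (ℓ : FreeGroup ι → ℕ)
    (hℓ : ∀ g x, ℓ (M.sec g x) ≤ ℓ g) :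
    ∃ I ⊆ A, A.card ≤ S.card * I.card ∧ ∀ k ∈ I, ∀ u, ℓ (M.secL k u) = ℓ k := by
  let Φ : List X → ℕ := fun u => ∑ k ∈ A.image (fun g => M.secL g u), (ℓ k + 1)
  obtain ⟨u, hu⟩ : ∃ u, ∀ w, Φ u ≤ Φ w := by
    have := WellFounded.has_min (measure Φ).wf Set.univ ⟨[], trivial⟩
    obtain ⟨u, _, hu⟩ := this
    exact ⟨u, fun w => not_lt.mp (hu w trivial)⟩
  have hAL : ∀ u : List X, ∀ g ∈ A, M.secL g u ∈ A := by
    intro u
    induction u with
    | nil => intro g hg; exact hg
    | cons x u ih => intro g hg; exact ih _ (hA g hg x)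
  have hℓL : ∀ (u : List X) g, ℓ (M.secL g u) ≤ ℓ g := by
    intro u
    induction u with
    | nil => intro g; exact le_rfl
    | cons x u ih => intro g; exact (ih _).trans (hℓ g x)
  refine ⟨A.image (fun g => M.secL g u), ?_, h.card_le_imageL A hA u, ?_⟩
  · intro k hk
    obtain ⟨g, hg, rfl⟩ := Finset.mem_image.mp hk
    exact hAL u g hg
  · intro k hk w
    by_contra hne
    have hlt : ℓ (M.secL k w) < ℓ k := lt_of_le_of_ne (hℓL w k) hne
    have h1 : Φ (u ++ w) < Φ u := by
      have h2 : A.image (fun g => M.secL g (u ++ w)) =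
          (A.image (fun g => M.secL g u)).image (fun g => M.secL g w) := by
        rw [Finset.image_image]
        refine Finset.image_congr ?_
        intro g _
        simp only [Function.comp, secL_append]
      have h3 : Φ (u ++ w) ≤ ∑ k ∈ A.image (fun g => M.secL g u), (ℓ (M.secL k w) + 1) := by
        show ∑ k ∈ A.image (fun g => M.secL g (u ++ w)), (ℓ k + 1) ≤ _
        rw [h2]
        exact Finset.sum_image_le_of_nonneg (fun _ _ => Nat.zero_le _)
      refine h3.trans_lt ?_
      refine Finset.sum_lt_sum (fun k _ => ?_) ⟨k, hk, ?_⟩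
      · have := hℓL w k
        omega
      · omega
    exact absurd (hu (u ++ w)) (not_le.mpr h1)

end count

end SS

end Pool.Agent.H149R3
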