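import Pool.Agent.H149R3.Metric

/-!
The word length of a finite generating set closed under inverses and sections.
-/

set_option autoImplicit false

namespace Pool.Agent.H149R3

universe u v

section wl

variable {G : Type*} [Group G]

/-- word length -/
noncomputable def wl (S : Set G) (g : G) : ℕ :=
  sInf {n | ∃ l : List G, (∀ s ∈ l, s ∈ S) ∧ l.prod = g ∧ l.length = n}

variable {S : Set G}

lemma wl_le (l : List G) (hl : ∀ s ∈ l, s ∈ S) : wl S l.prod ≤ l.length :=
  Nat.sInf_le ⟨l, hl, rfl, rfl⟩

lemma exists_rep (hgen : Subgroup.closure S = ⊤) (hinv : ∀ s ∈ S, s⁻¹ ∈ S) (g : G) :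
    ∃ l : List G, (∀ s ∈ l, s ∈ S) ∧ l.prod = g ∧ l.length = wl S g := by
  have h : {n | ∃ l : List G, (∀ s ∈ l, s ∈ S) ∧ l.prod = g ∧ l.length = n}.Nonempty := by
    have hg : g ∈ Submonoid.closure (S ∪ S⁻¹) := by
      rw [← Subgroup.closure_toSubmonoid, hgen]
      trivial
    obtain ⟨l, hl, hl'⟩ := Submonoid.exists_list_of_mem_closure hg
    refine ⟨l.length, l, fun s hs => ?_, hl', rfl⟩
    rcases hl s hs with h | h
    · exact h
    · have := hinv _ h
      rwa [inv_inv] at this
  exact Nat.sInf_mem h

/-- the word length as a length -/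
noncomputable def wlen (hgen : Subgroup.closure S = ⊤) (hinv : ∀ s ∈ S, s⁻¹ ∈ S)
    (hfin : S.Finite) : WLen G where
  len := wl S
  one := by
    have := wl_le (S := S) [] (by simp)
    simpa using this
  inv := by
    have key : ∀ g, wl S g⁻¹ ≤ wl S g := by
      intro g
      obtain ⟨l, hl, rfl, hlen⟩ := exists_rep hgen hinv g
      rw [← hlen, List.prod_inv_reverse]
      refine (wl_le _ ?_).trans (by simp)
      intro s hs
      rw [List.mem_reverse, List.mem_map] at hs
      obtain ⟨t, ht, rfl⟩ := hs
      exact hinv _ (hl t ht)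
    intro g
    apply le_antisymm (key g)
    have := key g⁻¹
    rwa [inv_inv] at this
  mul := by
    intro g h
    obtain ⟨l, hl, rfl, hlen⟩ := exists_rep hgen hinv g
    obtain ⟨l', hl', rfl, hlen'⟩ := exists_rep hgen hinv h
    rw [← hlen, ← hlen', ← List.prod_append, ← List.length_append]
    apply wl_le
    intro s hs
    rcases List.mem_append.mp hs with h | h
    · exact hl s h
    · exact hl' s h
  split := by
    intro g i j hij
    obtain ⟨l, hl, rfl, hlen⟩ := exists_rep hgen hinv g
    refine ⟨(l.take i).prod, (l.drop i).prod, ?_, ?_, ?_⟩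
    · exact (List.prod_take_mul_prod_drop l i).symm
    · refine (wl_le _ fun s hs => hl s (List.mem_of_mem_take hs)).trans ?_
      rw [List.length_take]
      exact min_le_left _ _
    · refine (wl_le _ fun s hs => hl s (List.mem_of_mem_drop hs)).trans ?_
      rw [List.length_drop]
      omega
  fin := by
    intro n
    induction n with
    | zero =>
      apply (Set.finite_singleton (1 : G)).subset
      intro g hg
      obtain ⟨l, hl, rfl, hlen⟩ := exists_rep hgen hinv g
      have h1 : wl S l.prod ≤ 0 := hg
      have h2 : l = [] := List.length_eq_zero_iff.mp (by omega)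
      subst h2
      exact rfl
    | succ n ih =>
      apply ((Set.finite_singleton (1 : G)).union (hfin.image2 (· * ·) ih)).subset
      intro g hg
      obtain ⟨l, hl, rfl, hlen⟩ := exists_rep hgen hinv g
      have h1 : wl S l.prod ≤ n + 1 := hg
      cases l with
      | nil => left; exact rfl
      | cons s l =>
        right
        rw [List.prod_cons]
        refine Set.mem_image2_of_mem (hl s List.mem_cons_self) ?_
        have h2 := wl_le l (fun t ht => hl t (List.mem_cons_of_mem _ ht))
        rw [List.length_cons] at hlen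
        show wl S l.prod ≤ n
        omega

end wl

open FreeGroup

/-- a free group with a finite generating set has a finite basis -/
lemma finite_of_closure {ι : Type v} (S : Finset (FreeGroup ι))
    (hgen : Subgroup.closure (S : Set (FreeGroup ι)) = ⊤) : Finite ι := by
  classical
  let F : Finset ι := S.biUnion (fun s => (s.toWord.map Prod.fst).toFinset)
  let φ : FreeGroup ι →* FreeGroup ι := FreeGroup.lift (fun i => if i ∈ F then 1 else FreeGroup.of i)
  have h1 : ∀ s ∈ S, φ s = 1 := by
    intro s hs
    have h2 : φ (FreeGroup.mk s.toWord) = 1 := by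
      show FreeGroup.lift (fun i => if i ∈ F then 1 else FreeGroup.of i)
        (FreeGroup.mk s.toWord) = 1
      rw [FreeGroup.lift_mk]
      apply List.prod_eq_one
      intro t ht
      obtain ⟨a, ha, rfl⟩ := List.mem_map.mp ht
      have h3 : a.1 ∈ F := by
        refine Finset.mem_biUnion.mpr ⟨s, hs, ?_⟩
        rw [List.mem_toFinset, List.mem_map]
        exact ⟨a, ha, rfl⟩
      cases a.2 <;> simp [h3]
    rwa [mk_toWord] at h2
  have h2 : ∀ g, φ g = 1 := by
    intro g
    have hg : g ∈ Subgroup.closure (S : Set (FreeGroup ι)) := by rw [hgen]; trivial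
    have hle : Subgroup.closure (S : Set (FreeGroup ι)) ≤ φ.ker := by
      rw [Subgroup.closure_le]
      intro s hs
      exact h1 s hs
    exact hle hg
  have h3 : ∀ i, i ∈ F := by
    intro i
    by_contra hi
    have h4 := h2 (FreeGroup.of i)
    simp only [φ, FreeGroup.lift_apply_of, if_neg hi] at h4
    exact FreeGroup.of_ne_one i h4
  exact Finite.of_injective (fun i => (⟨i, h3 i⟩ : F)) (fun i j h => congrArg Subtype.val h)

namespace SS

variable {X : Type u} {ι : Type v}

lemma exists_sec_list (M : SS (FreeGroup ι) X) (S : Set (FreeGroup ι))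
    (hS : ∀ s ∈ S, ∀ x, M.sec s x ∈ S) (l : List (FreeGroup ι)) (hl : ∀ s ∈ l, s ∈ S) (x : X) :
    ∃ l' : List (FreeGroup ι), (∀ s ∈ l', s ∈ S) ∧ l'.length = l.length ∧
      l'.prod = M.sec l.prod x := by
  induction l with
  | nil => exact ⟨[], by simp, rfl, by rw [List.prod_nil, M.sec_one]⟩
  | cons s l ih =>
    obtain ⟨l', h1, h2, h3⟩ := ih (fun t ht => hl t (List.mem_cons_of_mem _ ht))
    refine ⟨M.sec s (M.act l.prod x) :: l', ?_, by rw [List.length_cons, List.length_cons, h2], ?_⟩
    · intro t ht
      rcases List.mem_cons.mp ht with rfl | ht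
      · exact hS s (hl s List.mem_cons_self) _
      · exact h1 t ht
    · rw [List.prod_cons, List.prod_cons, M.sec_mul, h3]

/-- **The main step**: only the trivial element has a trivial section. -/
theorem Good.eq_one [Finite X] {M : SS (FreeGroup ι) X} {S : Finset (FreeGroup ι)}
    (h : M.Good S) (hinv : ∀ s ∈ S, s⁻¹ ∈ S) {f : FreeGroup ι} {x : X} (hf : M.sec f x = 1) :
    f = 1 := by
  classical
  cases nonempty_fintype X
  have := finite_of_closure S h.gen
  cases nonempty_fintype ι
  let W : WLen (FreeGroup ι) := wlen (S := (S : Set (FreeGroup ι))) h.gen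
    (fun s hs => Finset.mem_coe.mpr (hinv s (Finset.mem_coe.mp hs))) S.finite_toSet
  let R : ℕ := S.sup FreeGroup.norm
  let L₀ : ℕ := (Finset.univ : Finset (ι × Bool)).sup (fun a => W.len (FreeGroup.mk [a]))
  have hrep : ∀ g, ∃ l : List (FreeGroup ι), (∀ s ∈ l, s ∈ (S : Set (FreeGroup ι))) ∧
      l.prod = g ∧ l.length = W.len g := exists_rep h.gen
    (fun s hs => Finset.mem_coe.mpr (hinv s (Finset.mem_coe.mp hs)))
  have hle : ∀ l : List (FreeGroup ι), (∀ s ∈ l, s ∈ (S : Set (FreeGroup ι))) →
      W.len l.prod ≤ l.length := fun l hl => wl_le l hl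
  have hsec : ∀ g x, W.len (M.sec g x) ≤ W.len g := by
    intro g x
    obtain ⟨l, hl, rfl, hlen⟩ := hrep g
    obtain ⟨l', h1, h2, h3⟩ := exists_sec_list M (S : Set (FreeGroup ι)) h.sec l hl x
    rw [← hlen, ← h2, ← h3]
    exact hle l' h1
  have H : Hyp M W (S : Set (FreeGroup ι)) R L₀ S.card :=
    { two := h.two
      sec_le := hsec
      rep := hrep
      le := hle
      norm_le := fun s hs => Finset.le_sup (f := FreeGroup.norm) hs
      letter := fun a => Finset.le_sup (f := fun a => W.len (FreeGroup.mk [a])) (Finset.mem_univ a)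
      dense := by
        intro n
        obtain ⟨I, hI, h1, h2⟩ := h.exists_core (W.ball n) (by
          intro g hg y
          rw [WLen.mem_ball] at *
          exact (hsec g y).trans hg) W.len hsec
        refine h1.trans (Nat.mul_le_mul_left _ ?_)
        rw [← Set.ncard_coe_finset]
        apply Set.ncard_le_ncard
        · intro g hg
          exact ⟨h2 g hg, W.mem_ball.mp (hI hg)⟩
        · exact (W.fin n).subset (fun g hg => hg.2) }
  exact H.eq_one hf

end SS

end Pool.Agent.H149R3
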